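import Pool.Agent.Helper8.QU.Class
import Pool.Agent.Helper11.QU.P2
import Pool.Agent.Helper11.QU.P3
import Pool.Agent.Helper28.QU.P6
import Pool.Agent.Helper83.RelQ.Defs

/-!
# T-REL for quadric bundles, Q3: the irreducible factors of the symbol
-/

set_option autoImplicit false

namespace Pool.Agent.Helper8.RelQ

open Matrix Pool.Agent.Helper49.QU Pool.Agent.Helper69.CB Pool.Agent.Helper8.QU

variable {n r : ℕ} {N : Fin r → ℕ}

/-- **Q3.** the irreducible factors of the symbol over a field, without split fibres -/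
theorem factor_tri {k : Type} [Field k] [CharZero k] (dm : ℕ) (hdm : 2 ≤ dm)
    (B : ∀ i : Fin r, Matrix (Fin (N i)) (Fin (N i)) (MvPolynomial (Fin n) k))
    (hB : ∀ i, (B i).IsSymm) (i : Fin r)
    (hr : ∃ f g : Fin 3 → Fin (N i), ((B i).submatrix f g).det ≠ 0)
    (h : ∀ P : MvPolynomial (Fin n) k, Irreducible P → Minors (B i) P → TriDeg dm P)
    (P : MvPolynomial (Fin (vn N + n)) k) (hP : Irreducible P)
    (hd : P ∣ aQ N B i * bQ N B i) : TriDeg dm P := by
  have hb := (Pool.Agent.Helper28.QU.aQ_bQ_ne_zero B hB i hr).2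
  intro j hj
  by_cases hv : ∀ s : VI N, P.degreeOf (vix N s) = 0
  · obtain ⟨P0, hP0, hPP, hdeg⟩ := exists_old P hP hv
    have h1 := h P0 hP0 (Pool.Agent.Helper11.QU.minors_of_dvd B hB i P0 hP0 (hPP ▸ hd))
    rcases mem_range_or j with ⟨s, rfl⟩ | ⟨j0, rfl⟩
    · rw [hv s]
      exact Nat.zero_le _
    · rw [hdeg j0]
      refine h1 j0 fun l hl => ?_
      rw [← hdeg l]
      exact hj _ (tix_lt_tix.2 hl)
  · push Not at hv
    obtain ⟨s, hs⟩ := hv
    have h3 : D1 (incB N B i) (gv n N k i) * D2 (incB N B i) (gv n N k i) *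
        D3 (incB N B i) (gv n N k i) ≠ 0 := by
      unfold bQ qb at hb
      exact neg_ne_zero.1 hb
    have hn3 := right_ne_zero_of_mul h3
    have hn2 := right_ne_zero_of_mul (left_ne_zero_of_mul h3)
    have hn1 := left_ne_zero_of_mul (left_ne_zero_of_mul h3)
    have hpr : Prime P := hP.prime
    have hdiv : P ∣ D1 (incB N B i) (gv n N k i) ∨ P ∣ D2 (incB N B i) (gv n N k i) ∨
        P ∣ D3 (incB N B i) (gv n N k i) := by
      unfold aQ bQ qa qb at hd
      rcases hpr.dvd_or_dvd hd with h4 | h4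
      · exact Or.inr (Or.inl ((dvd_neg).1 h4))
      · rcases hpr.dvd_or_dvd ((dvd_neg).1 h4) with h5 | h5
        · rcases hpr.dvd_or_dvd h5 with h6 | h6
          · exact Or.inl h6
          · exact Or.inr (Or.inl h6)
        · exact Or.inr (Or.inr h5)
    rcases mem_range_or j with ⟨s', rfl⟩ | ⟨j0, rfl⟩
    · obtain ⟨e1, e2, e3⟩ := Pool.Agent.Helper11.QU.degreeOf_D B i s'
      rcases hdiv with h5 | h5 | h5
      · exact ((degreeOf_le_of_dvd _ hn1 h5).trans e1).trans hdm
      · exact ((degreeOf_le_of_dvd _ hn2 h5).trans e2).trans hdm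
      · exact ((degreeOf_le_of_dvd _ hn3 h5).trans e3).trans hdm
    · exact absurd (hj _ (vix_lt_tix s j0)) hs

end Pool.Agent.Helper8.RelQ
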